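import Pool.Agent.TH777.Y.Infinite

/-!
# Infinitely many additivities of Yorioka ideals

There is a ccc notion of forcing `P` which forces the combinatorial sentence `PhiFor K f`
(`PhiHolds P K f` is its literal translation into the forcing language), and this sentence implies
that there are infinitely many cardinals of the form `add(I_g)`.

The functions `f 0, f 1, f 2, …` satisfy `f (m + 1) ≤ f m`, but at infinitely many points `n` the
number `f m n` is larger than anything that can be computed from the values of `f (m + 1)` which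
are relevant for the merging of conditions. The notion of forcing is a finite support iteration of
length `ℵ_{ω+1}` of slalom forcings: for `ℵ_{m+1}` many functions with the bound
`2 ^ (2 ^ n * f (m + 1) (2 ^ (n * n)))` one adds a slalom of width `n` which captures all of them,
and dominating functions are added. A family of `ℵ_{m+1}` many Cohen functions below `f m`, which
is added first, is not captured by a slalom of width `2 ^ n`.
-/

set_option autoImplicit false

namespace Pool.Agent.Results.MP_958b88_lc.InfinitelyManyAdd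

open Cardinal Pool.Agent.TH777.Y

/-- The finite binary sequence `s` is an initial segment of `z`. -/
def IsInitial (s : List Bool) (z : ℕ → Bool) : Prop :=
  ∀ (i : ℕ) (h : i < s.length), s[i] = z i

/-- `[σ]_∞`: the points having `σ n` as an initial segment for infinitely many `n`. -/
def LimInf (σ : ℕ → List Bool) : Set (ℕ → Bool) :=
  {z | {n : ℕ | IsInitial (σ n) z}.Infinite}

/-- `x ≪ y`: for every `k` there is `m` with `x (i ^ k) ≤ y i` for all `i ≥ m`. -/
def FarBelow (x y : ℕ → ℕ) : Prop := ∀ k : ℕ, ∃ m : ℕ, ∀ i : ℕ, m ≤ i → x (i ^ k) ≤ y i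

/-- The Yorioka ideal of `f`. -/
def Yorioka (f : ℕ → ℕ) : Set (Set (ℕ → Bool)) :=
  {A | ∃ σ : ℕ → List Bool, FarBelow f (fun n => (σ n).length) ∧ A ⊆ LimInf σ}

/-- The additivity of `J`: the least cardinality of a subfamily of `J` whose union is not
in `J`. -/
noncomputable def addOf (J : Set (Set (ℕ → Bool))) : Cardinal.{0} :=
  sInf {κ | ∃ F : Set (Set (ℕ → Bool)), F ⊆ J ∧ ⋃₀ F ∉ J ∧ #F = κ}

theorem yorioka_eq (f : ℕ → ℕ) : Yorioka f = Pool.Agent.H31R3.Yor.I f := by
  ext A
  constructor
  · rintro ⟨σ, h1, h2⟩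
    refine ⟨σ, fun k => Filter.eventually_atTop.2 (h1 k), fun z hz => ?_⟩
    exact Nat.frequently_atTop_iff_infinite.2 (h2 hz)
  · rintro ⟨σ, h1, h2⟩
    refine ⟨σ, fun k => Filter.eventually_atTop.1 (h1 k), fun z hz => ?_⟩
    exact Nat.frequently_atTop_iff_infinite.1 (h2 hz)

/-- (A) There are a sequence `K` of sets, a sequence `f` of increasing functions, and a ccc notion
of forcing `P` all of whose conditions force the sentence `PhiFor K f`. (B) Whenever
`PhiFor K f` holds for a sequence `f` of increasing functions,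
`add(I_{f m}) ≤ #(K m) < add(I_{f (m + 1)})` for all `m`, and the set of the cardinals `add(I_g)`
is infinite. -/
theorem result :
    (∃ (K : ℕ → Type) (f : ℕ → ℕ → ℕ) (P : Type) (_ : Preorder P), (∀ m, StrictMono (f m)) ∧
      Nonempty P ∧
      (∀ A : Set P, (∀ p ∈ A, ∀ q ∈ A, p ≠ q → ¬ ∃ r, r ≤ p ∧ r ≤ q) → A.Countable) ∧
      ∀ p : P, p ∈ PhiHolds P K f) ∧
    (∀ (K : ℕ → Type) (f : ℕ → ℕ → ℕ), (∀ m, StrictMono (f m)) → PhiFor K f →
      (∀ m, addOf (Yorioka (f m)) ≤ #(K m) ∧ #(K m) < addOf (Yorioka (f (m + 1)))) ∧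
      {κ | ∃ g : ℕ → ℕ, StrictMono g ∧ κ = addOf (Yorioka g)}.Infinite) := by
  constructor
  · obtain ⟨K, P, hP, h1, h2, h3⟩ := exists_forcing
    exact ⟨K, ff, P, hP, ff_strictMono, h1, h2, h3⟩
  · intro K f hf h
    have hadd : ∀ f, addOf (Yorioka f) = Pool.Agent.H31R3.Yor.add (Pool.Agent.H31R3.Yor.I f) := by
      intro f; rw [yorioka_eq]; rfl
    have h1 : ∀ m, addOf (Yorioka (f m)) ≤ #(K m) ∧ #(K m) < addOf (Yorioka (f (m + 1))) := by
      intro m
      rw [hadd, hadd]
      exact ⟨notCap_add (hf m) (h m).1, cap_add (hf (m + 1)) (h m).2.1 (h m).2.2⟩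
    have h2 : StrictMono fun m => addOf (Yorioka (f m)) :=
      strictMono_nat_of_lt_succ fun m => (h1 m).1.trans_lt (h1 m).2
    refine ⟨h1, (Set.infinite_range_of_injective h2.injective).mono ?_⟩
    rintro _ ⟨m, rfl⟩
    exact ⟨f m, hf m, rfl⟩

end Pool.Agent.Results.MP_958b88_lc.InfinitelyManyAdd
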